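import Mathlib

namespace Pool.Agent.Results.MP_1f0dde_co.Aper

/-- `(x, y)` is a P-position of the subtraction game with rule set `S` -/
def IsP (S : Finset (ℕ × ℕ)) (x y : ℕ) : Prop :=
  ∀ s ∈ S, (_h0 : s ≠ (0, 0)) → (_h1 : s.1 ≤ x) → (_h2 : s.2 ≤ y) → ¬ IsP S (x - s.1) (y - s.2)
termination_by x + y
decreasing_by
  have : s.1 ≠ 0 ∨ s.2 ≠ 0 := by
    by_contra h
    push Not at h
    exact _h0 (Prod.ext h.1 h.2)
  omega

/-- the outcomes are eventually periodic on every line of positive rational slope that contains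
infinitely many positions -/
def EvPer (S : Finset (ℕ × ℕ)) : Prop :=
  ∀ (p q : ℕ) (m : ℚ), 0 < p → 0 < q →
    {x : ℕ | ∃ y : ℕ, (y : ℚ) = p * x / q + m}.Infinite →
    ∃ T x' : ℕ, 0 < T ∧
      (∀ x : ℤ, (∃ y : ℤ, (y : ℚ) = p * x / q + m) → ∃ y : ℤ, (y : ℚ) = p * (x + T) / q + m) ∧
      ∀ x ≥ x', ∀ y y' : ℕ, (y : ℚ) = p * x / q + m → (y' : ℚ) = p * (x + T) / q + m →
        (IsP S x y ↔ IsP S (x + T) y')

def L : List (ℕ × ℕ) := [(0, 2), (0, 4), (0, 5), (0, 7), (1, 1), (1, 5), (1, 6), (1, 7), (2, 0),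
  (2, 1), (2, 3), (2, 8), (3, 2), (3, 4), (3, 5), (3, 7), (4, 0), (4, 3), (4, 4), (4, 8), (5, 0),
  (5, 1), (5, 5), (5, 6), (5, 7), (6, 2), (6, 4), (6, 7), (6, 8), (7, 0), (7, 1), (7, 5), (7, 6),
  (8, 2), (8, 4), (8, 8), (2, 5), (11, 5), (5, 8), (3, 3), (17, 5), (6, 0), (4, 1), (1, 4)]

def kind (i j : ℕ) : ℕ :=
  if (i, j) = (0, 0) ∨ (i, j) = (1, 0) ∨ (i, j) = (0, 1) then 1
  else if (i, j) = (1, 3) then 2 else if (i, j) = (4, 6) then 3 else if (i, j) = (7, 3) then 4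
  else if (i, j) = (8, 7) then 5 else 0

def wires : ℕ → List (ℕ × ℕ)
  | 2 => [(2, 5), (11, 5)]
  | 3 => [(5, 8), (3, 3)]
  | 4 => [(17, 5), (6, 0)]
  | 5 => [(4, 1), (1, 4)]
  | _ => []

def W : ℕ → ℕ → Bool
  | _, 0 => true
  | 0, _ + 1 => true
  | 1, _ + 1 => false
  | X + 2, Y + 1 => W (X + 1) Y == W X Y

def A (X Y : ℕ) : Bool := decide (1 ≤ X ∧ 1 ≤ Y) && W (X - 1) (Y - 1)
def B (X Y : ℕ) : Bool := decide (2 ≤ X ∧ 1 ≤ Y) && W (X - 2) (Y - 1)

theorem W0 (Y : ℕ) : W 0 Y = true := by cases Y <;> rfl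

theorem W_eq (X Y : ℕ) : W X Y = (A X Y == B X Y) := by
  rcases Y with _ | Y
  · simp [A, B, W]
  · rcases X with _ | _ | X
    · simp [A, B, W]
    · simp [A, B, W, W0]
    · simp [A, B, W]

def g : ℕ → Bool → Bool → Bool
  | 1, _, _ => true
  | 2, a, b => !a && !b
  | 3, a, b => !a && b
  | 4, a, b => a && !b
  | 5, a, b => a == b
  | _, _, _ => false

def Q (x y : ℕ) : Bool := g (kind (x % 9) (y % 9)) (A (x / 9) (y / 9)) (B (x / 9) (y / 9))

theorem Q_blk (X Y i j : ℕ) (hi : i < 9) (hj : j < 9) :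
    Q (9 * X + i) (9 * Y + j) = g (kind i j) (A X Y) (B X Y) := by
  unfold Q
  rw [show (9 * X + i) % 9 = i by omega, show (9 * Y + j) % 9 = j by omega,
    show (9 * X + i) / 9 = X by omega, show (9 * Y + j) / 9 = Y by omega]

theorem Q_w (X Y : ℕ) : Q (9 * X + 8) (9 * Y + 7) = W X Y := by
  rw [Q_blk _ _ _ _ (by norm_num) (by norm_num), W_eq]; rfl

theorem K0 : ∀ s ∈ L, s ≠ (0, 0) ∧ s.1 ≤ 18 ∧ s.2 ≤ 9 := by decide
theorem K1 : ∀ i < 9, ∀ j < 9, kind i j = 0 →
    ∃ s ∈ L, s.1 ≤ i ∧ s.2 ≤ j ∧ kind (i - s.1) (j - s.2) = 1 := by decide +kernel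
theorem K2 : ∀ i < 9, ∀ j < 9, kind i j ≠ 0 → ∀ s ∈ L,
    kind ((i + 18 - s.1) % 9) ((j + 9 - s.2) % 9) = 0 ∨ s ∈ wires (kind i j) := by decide +kernel
theorem K3 : ∀ i < 9, ∀ j < 9, ∀ s ∈ wires (kind i j), s ∈ L := by decide +kernel
theorem K4 : ∀ i < 9, ∀ j < 9, kind i j ≠ 0 → kind i j = 1 ∨ (i = 1 ∧ j = 3) ∨ (i = 4 ∧ j = 6) ∨
    (i = 7 ∧ j = 3) ∨ (i = 8 ∧ j = 7) := by
  intro i hi j hj
  interval_cases i <;> interval_cases j <;> decide

theorem tA (X Y x y : ℕ) (P : Prop) (h1 : P ↔ 1 ≤ X ∧ 1 ≤ Y)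
    (h2 : P → x = 9 * (X - 1) + 8 ∧ y = 9 * (Y - 1) + 7) : (P → Q x y = false) ↔ A X Y = false := by
  unfold A
  by_cases hP : P
  · obtain ⟨rfl, rfl⟩ := h2 hP
    simp [Q_w, hP, h1.1 hP]
  · have := mt h1.2 hP
    simp only [hP, false_imp_iff, this, decide_false, Bool.false_and]

theorem tB (X Y x y : ℕ) (P : Prop) (h1 : P ↔ 2 ≤ X ∧ 1 ≤ Y)
    (h2 : P → x = 9 * (X - 2) + 8 ∧ y = 9 * (Y - 1) + 7) : (P → Q x y = false) ↔ B X Y = false := by
  unfold B
  by_cases hP : P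
  · obtain ⟨rfl, rfl⟩ := h2 hP
    simp [Q_w, hP, h1.1 hP]
  · have := mt h1.2 hP
    simp only [hP, false_imp_iff, this, decide_false, Bool.false_and]

theorem tC (X Y x y i j : ℕ) (hi : i < 9) (hj : j < 9) (P : Prop) (h1 : P)
    (h2 : x = 9 * X + i ∧ y = 9 * Y + j) :
    (P → Q x y = false) ↔ g (kind i j) (A X Y) (B X Y) = false := by
  obtain ⟨rfl, rfl⟩ := h2
  simp [h1, Q_blk X Y i j hi hj]

theorem Q_rec (x y : ℕ) :
    Q x y = true ↔ ∀ s ∈ L, s.1 ≤ x ∧ s.2 ≤ y → Q (x - s.1) (y - s.2) = false := by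
  obtain ⟨X, i, hi, rfl⟩ : ∃ X i, i < 9 ∧ x = 9 * X + i := ⟨x / 9, x % 9, by omega, by omega⟩
  obtain ⟨Y, j, hj, rfl⟩ : ∃ Y j, j < 9 ∧ y = 9 * Y + j := ⟨y / 9, y % 9, by omega, by omega⟩
  rw [Q_blk X Y i j hi hj]
  by_cases hk : kind i j = 0
  · obtain ⟨s, hs, h1, h2, h3⟩ := K1 i hi j hj hk
    rw [hk]
    refine ⟨fun h => by simp [g] at h, fun h => ?_⟩
    have := h s hs ⟨by omega, by omega⟩
    rw [show 9 * X + i - s.1 = 9 * X + (i - s.1) by omega,
      show 9 * Y + j - s.2 = 9 * Y + (j - s.2) by omega, Q_blk _ _ _ _ (by omega) (by omega),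
      h3] at this
    simp [g] at this
  · have e : (∀ s ∈ L, s.1 ≤ 9 * X + i ∧ s.2 ≤ 9 * Y + j →
        Q (9 * X + i - s.1) (9 * Y + j - s.2) = false) ↔
        ∀ s ∈ wires (kind i j), s.1 ≤ 9 * X + i ∧ s.2 ≤ 9 * Y + j →
          Q (9 * X + i - s.1) (9 * Y + j - s.2) = false := by
      refine ⟨fun h s hs => h s (K3 i hi j hj s hs), fun h s hs hle => ?_⟩
      rcases K2 i hi j hj hk s hs with h1 | h1
      · have := K0 s hs
        unfold Q
        rw [show (9 * X + i - s.1) % 9 = (i + 18 - s.1) % 9 by omega,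
          show (9 * Y + j - s.2) % 9 = (j + 9 - s.2) % 9 by omega, h1]
        rfl
      · exact h s h1 hle
    rw [e]
    rcases K4 i hi j hj hk with h | ⟨rfl, rfl⟩ | ⟨rfl, rfl⟩ | ⟨rfl, rfl⟩ | ⟨rfl, rfl⟩
    · rw [h]; simp [g, wires]
    · rw [show kind 1 3 = 2 from rfl]
      simp only [wires, List.forall_mem_cons, List.not_mem_nil, false_imp_iff, implies_true,
        and_true]
      rw [tA X Y _ _ _ (by omega) (by omega), tB X Y _ _ _ (by omega) (by omega)]
      simp [g]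
    · rw [show kind 4 6 = 3 from rfl]
      simp only [wires, List.forall_mem_cons, List.not_mem_nil, false_imp_iff, implies_true,
        and_true]
      rw [tA X Y _ _ _ (by omega) (by omega),
        tC X Y _ _ 1 3 (by omega) (by omega) _ (by omega) (by omega), show kind 1 3 = 2 from rfl]
      cases A X Y <;> cases B X Y <;> simp [g]
    · rw [show kind 7 3 = 4 from rfl]
      simp only [wires, List.forall_mem_cons, List.not_mem_nil, false_imp_iff, implies_true,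
        and_true]
      rw [tB X Y _ _ _ (by omega) (by omega),
        tC X Y _ _ 1 3 (by omega) (by omega) _ (by omega) (by omega), show kind 1 3 = 2 from rfl]
      cases A X Y <;> cases B X Y <;> simp [g]
    · rw [show kind 8 7 = 5 from rfl]
      simp only [wires, List.forall_mem_cons, List.not_mem_nil, false_imp_iff, implies_true,
        and_true]
      rw [tC X Y _ _ 4 6 (by omega) (by omega) _ (by omega) (by omega),
        tC X Y _ _ 7 3 (by omega) (by omega) _ (by omega) (by omega), show kind 4 6 = 3 from rfl,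
        show kind 7 3 = 4 from rfl]
      cases A X Y <;> cases B X Y <;> simp [g]

theorem isP_iff : ∀ n x y, x + y = n → (IsP L.toFinset x y ↔ Q x y = true) := by
  intro n
  induction n using Nat.strong_induction_on with
  | _ n ih =>
    intro x y hn
    rw [IsP, Q_rec]
    simp only [List.mem_toFinset]
    refine forall₂_congr fun s hs => ?_
    have h0 := (K0 s hs).1
    have : s.1 ≠ 0 ∨ s.2 ≠ 0 := by
      by_contra h
      push Not at h
      exact h0 (Prod.ext h.1 h.2)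
    constructor
    · intro h hle
      have := h h0 hle.1 hle.2
      rw [ih _ (by omega) _ _ rfl] at this
      simpa using this
    · intro h _ h1 h2
      rw [ih _ (by omega) _ _ rfl, h ⟨h1, h2⟩]
      simp

def D (X Y : ℕ) : Bool := xor (W X (Y + 1)) (W X Y)

theorem D_rec (X Y : ℕ) : D (X + 2) (Y + 1) = xor (D (X + 1) Y) (D X Y) := by
  simp only [D, W]
  cases W (X + 1) (Y + 1) <;> cases W X (Y + 1) <;> cases W (X + 1) Y <;> cases W X Y <;> rfl

theorem D_low : ∀ Y X, X ≤ Y → D X Y = false := by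
  intro Y
  induction Y with
  | zero => intro X h; obtain rfl : X = 0 := by omega
            rfl
  | succ Y ih =>
    intro X h
    rcases X with _ | _ | X
    · rfl
    · rfl
    · rw [D_rec, ih _ (by omega), ih _ (by omega)]; rfl

theorem D_eq : ∀ Y k, D (Y + 1 + k) Y = decide (Y.choose k % 2 = 1) := by
  intro Y
  induction Y with
  | zero =>
    intro k
    rcases k with _ | k
    · rfl
    · rw [show 0 + 1 + (k + 1) = k + 2 by omega]
      simp [D, W]
  | succ Y ih =>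
    intro k
    rw [show Y + 1 + 1 + k = (Y + k) + 2 by omega, D_rec, show Y + k + 1 = Y + 1 + k by omega, ih]
    rcases k with _ | k
    · rw [D_low _ _ (by omega)]; simp
    · rw [show Y + (k + 1) = Y + 1 + k by omega, ih, Nat.choose_succ_succ]
      rcases Nat.mod_two_eq_zero_or_one (Y.choose k) with h1 | h1 <;>
        rcases Nat.mod_two_eq_zero_or_one (Y.choose (k + 1)) with h2 | h2 <;>
        simp [h1, h2, Nat.add_mod]

theorem lucas (n k : ℕ) : n.choose k % 2 = ((n % 2).choose (k % 2) * (n / 2).choose (k / 2)) % 2 :=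
  haveI : Fact (Nat.Prime 2) := ⟨Nat.prime_two⟩
  Choose.choose_modEq_choose_mod_mul_choose_div_nat

theorem odd_pow (a : ℕ) : (3 * 2 ^ a).choose (2 ^ a) % 2 = 1 := by
  induction a with
  | zero => rfl
  | succ a ih =>
    rw [lucas, pow_succ, show 3 * (2 ^ a * 2) % 2 = 0 by omega, show 2 ^ a * 2 % 2 = 0 by omega,
      show 3 * (2 ^ a * 2) / 2 = 3 * 2 ^ a by omega, show 2 ^ a * 2 / 2 = 2 ^ a by omega]
    simpa using ih

theorem half (a b : ℕ) (h : (a + b).choose a % 2 = 1) : (a / 2 + b / 2).choose (a / 2) % 2 = 1 := by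
  rw [lucas] at h
  rcases Nat.mod_two_eq_zero_or_one a with h1 | h1 <;>
    rcases Nat.mod_two_eq_zero_or_one b with h2 | h2
  · rw [show (a + b) % 2 = 0 by omega, h1, show (a + b) / 2 = a / 2 + b / 2 by omega] at h
    simpa using h
  · rw [show (a + b) % 2 = 1 by omega, h1, show (a + b) / 2 = a / 2 + b / 2 by omega] at h
    simpa using h
  · rw [show (a + b) % 2 = 1 by omega, h1, show (a + b) / 2 = a / 2 + b / 2 by omega] at h
    simpa using h
  · rw [show (a + b) % 2 = 0 by omega, h1] at h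
    simp at h

theorem even_rng : ∀ c a b, 3 * 2 ^ c ≤ a → a < 4 * 2 ^ c → 6 * 2 ^ c ≤ b → b < 8 * 2 ^ c →
    (a + b).choose a % 2 ≠ 1 := by
  intro c
  induction c with
  | zero =>
    intro a b h1 h2 h3 h4
    obtain rfl : a = 3 := by omega
    have : b = 6 ∨ b = 7 := by omega
    rcases this with rfl | rfl <;> decide
  | succ c ih =>
    intro a b h1 h2 h3 h4 h
    rw [pow_succ] at h1 h2 h3 h4
    exact ih _ _ (by omega) (by omega) (by omega) (by omega) (half a b h)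

theorem line (h : EvPer L.toFinset) (e : ℕ) : ∃ T K, 0 < T ∧ ∀ k ≥ K, ∀ c,
    Q (4 * (k + c * T) + 17) (3 * (k + c * T) + e) = Q (4 * k + 17) (3 * k + e) := by
  obtain ⟨T, x', hT, h1, h2⟩ := h 3 4 ((e : ℚ) - 51 / 4) (by norm_num) (by norm_num) (by
    refine Set.infinite_of_injective_forall_mem (f := fun k : ℕ => 4 * k + 17)
      (fun a b hab => by simpa using hab) fun k => ⟨3 * k + e, ?_⟩
    push_cast; ring)
  obtain ⟨y, hy⟩ := h1 17 ⟨e, by push_cast; ring⟩
  have h4 : 4 * (y - e) = 3 * (T : ℤ) := by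
    have : (4 : ℚ) * (y - e) = 3 * T := by rw [hy]; push_cast; ring
    exact_mod_cast this
  obtain ⟨U, rfl⟩ : ∃ U, T = 4 * U := ⟨T / 4, by omega⟩
  refine ⟨U, x', by omega, fun k hk c => ?_⟩
  induction c with
  | zero => simp
  | succ c ih =>
    rw [← ih]
    have := h2 (4 * (k + c * U) + 17) (by omega) (3 * (k + c * U) + e) (3 * (k + (c + 1) * U) + e)
      (by push_cast; ring) (by push_cast; ring)
    rw [isP_iff _ _ _ rfl, isP_iff _ _ _ rfl,
      show 4 * (k + c * U) + 17 + 4 * U = 4 * (k + (c + 1) * U) + 17 by ring] at this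
    exact (Bool.eq_iff_iff.2 this).symm

theorem result : ∃ S : Finset (ℕ × ℕ), (0, 0) ∉ S ∧ ¬ EvPer S := by
  refine ⟨L.toFinset, by decide, fun h => ?_⟩
  obtain ⟨T1, K1, h1, p1⟩ := line h 7
  obtain ⟨T2, K2, h2, p2⟩ := line h 16
  have hQ : ∀ j, decide ((3 * j).choose j % 2 = 1) =
      xor (Q (4 * (9 * j) + 17) (3 * (9 * j) + 16)) (Q (4 * (9 * j) + 17) (3 * (9 * j) + 7)) := by
    intro j
    rw [← D_eq, show 4 * (9 * j) + 17 = 9 * (3 * j + 1 + j) + 8 by ring,
      show 3 * (9 * j) + 16 = 9 * (3 * j + 1) + 7 by ring,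
      show 3 * (9 * j) + 7 = 9 * (3 * j) + 7 by ring, Q_w, Q_w]
    rfl
  have per : ∀ j, K1 + K2 ≤ j → ∀ c, decide ((3 * (j + c * (T1 * T2))).choose (j + c * (T1 * T2))
      % 2 = 1) = decide ((3 * j).choose j % 2 = 1) := by
    intro j hj c
    rw [hQ, hQ]
    have e1 := p1 (9 * j) (by omega) (9 * c * T2)
    have e2 := p2 (9 * j) (by omega) (9 * c * T1)
    rw [show 9 * j + 9 * c * T2 * T1 = 9 * (j + c * (T1 * T2)) by ring] at e1
    rw [show 9 * j + 9 * c * T1 * T2 = 9 * (j + c * (T1 * T2)) by ring] at e2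
    rw [e1, e2]
  have hT : 0 < T1 * T2 := Nat.mul_pos h1 h2
  generalize T1 * T2 = T at *
  have hb : K1 + K2 + T < 2 ^ (K1 + K2 + T) := Nat.lt_two_pow_self
  have ho := odd_pow (K1 + K2 + T)
  have hev := even_rng (K1 + K2 + T)
  generalize 2 ^ (K1 + K2 + T) = N at *
  have h3 := per N (by omega) (2 * N / T + 1)
  have h4 := Nat.div_add_mod (2 * N) T
  have h5 := Nat.mod_lt (2 * N) hT
  have h6 : (2 * N / T + 1) * T = T * (2 * N / T) + T := by ring
  generalize (2 * N / T + 1) * T = M at *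
  rw [ho, show 3 * (N + M) = (N + M) + 2 * (N + M) by ring] at h3
  exact hev (N + M) (2 * (N + M)) (by omega) (by omega) (by omega) (by omega) (by simpa using h3)

end Pool.Agent.Results.MP_1f0dde_co.Aper
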